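import Pool.Agent.TH477.PA.Hall

set_option autoImplicit false

/-!
# Optimal stars (job PA-STAR)
-/

namespace Pool.Agent.TH669.J675

open Finset Pool.Agent.TH477.PA

variable {k D r p : ℕ} {ℓ : ℝ}

theorem choose_ge (k : ℕ) (hk : 3 ≤ k) : k ≤ k.choose 2 := by
  induction k, hk using Nat.le_induction with
  | base => decide
  | succ n hn ih =>
    have : (n + 1).choose 2 = n.choose 1 + n.choose 2 := Nat.choose_succ_succ n 1
    rw [this, Nat.choose_one_right]
    omega

theorem card_lt_r (hO : Opt k D r ℓ) (p : ℕ) (hp : 1 ≤ p) (A : Finset (Fin r))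
    (hA : A.card = ct k D p) : A.card < r := by
  have h1 := hO.hr
  have h2 := hO.hDC
  have h3 := choose_ge k hO.hk
  have h4 := hO.hD
  rw [hA]
  unfold ct
  split_ifs with h
  · omega
  · omega

theorem ne_univ_of_card_lt {r : ℕ} (A : Finset (Fin r)) (h : A.card < r) : A ≠ univ := by
  rintro rfl
  rw [Finset.card_univ, Fintype.card_fin] at h
  exact lt_irrefl _ h

/-- conclusion from one class with the whole loss -/
theorem concl (hr : 2 ≤ r) (B : ℕ → Finset (Fin r)) (hle : ∑ i ∈ range p, ls (B i) ≤ p * ℓ)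
    (i0 : ℕ) (hi0 : i0 < p) (h0 : ls (B i0) = p * ℓ) :
    ∑ i ∈ range p, ls (B i) = p * ℓ ∧ ∀ j, j < p → j ≠ i0 → B j = univ := by
  have h1 : ls (B i0) ≤ ∑ i ∈ range p, ls (B i) :=
    Finset.single_le_sum (f := fun i => ls (B i)) (fun i _ => ls_nonneg _) (mem_range.2 hi0)
  refine ⟨le_antisymm hle (by linarith), ?_⟩
  intro j hj hji
  have h2 : ls (B i0) + ls (B j) ≤ ∑ i ∈ range p, ls (B i) := by
    have h3 : ∑ i ∈ ({i0, j} : Finset ℕ), ls (B i) ≤ ∑ i ∈ range p, ls (B i) := by
      refine Finset.sum_le_sum_of_subset_of_nonneg ?_ fun i _ _ => ls_nonneg _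
      intro i hi
      rw [Finset.mem_insert, Finset.mem_singleton] at hi
      rw [mem_range]
      rcases hi with rfl | rfl
      · exact hi0
      · exact hj
    rwa [Finset.sum_pair (Ne.symm hji)] at h3
  exact eq_univ_of_ls hr (B j) (by linarith)

/-- the case of one class -/
theorem star_one (k D r : ℕ) (ℓ : ℝ) (hO : Opt k D r ℓ)
    (hT : ∀ Q : Fin k → Fin k → Finset (Fin r), ¬ SCol (k.choose 2 + 1 - D) Q →
      (∀ j : Fin k, ∑ i ∈ univ.filter (fun i => i < j), ls (Q i j) ≤ (j.val : ℝ) * ℓ) →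
      (((k - 1 : ℕ) : ℝ) * ℓ = Real.log r ∧ ∃ i j : Fin k, i < j ∧ j.val = k - 1 ∧ Q i j = ∅ ∧
        ∀ i', i' < j → i' ≠ i → Q i' j = univ) ∨
      (ℓ = Real.log r - Real.log ((k.choose 2 - D : ℕ) : ℝ) ∧
        ∃ U : Finset (Fin r), U.card = k.choose 2 - D ∧ ∀ i j, i < j → Q i j ⊆ U) ∨
      (∃ p c : ℕ, k ≤ 2 * p ∧ p + c + D = k ∧ 2 ≤ c ∧ (p : ℝ) * ℓ = Real.log r - Real.log c ∧
        ∃ i j : Fin k, i < j ∧ j.val = p ∧ (Q i j).card = c ∧
          ∀ i', i' < j → i' ≠ i → Q i' j = univ))
    (hp : IsType k D r ℓ 1) (A : Finset (Fin r)) (hA : A.card = ct k D 1)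
    (B : ℕ → Finset (Fin r))
    (hB : ∀ J : Fin k → ℕ, (∀ t, J t < 1) → ¬ SCol (k.choose 2 + 1 - D)
      (fun i j : Fin k => if i.val = 0 then B (J j) else if J i = J j then A else univ))
    (hle : ∑ i ∈ range 1, ls (B i) ≤ (1 : ℕ) * ℓ) : B 0 = A := by
  have hk := hO.hk
  have hDC := hO.hDC
  have hpos := hO.pos
  have hAr := card_lt_r hO 1 le_rfl A hA
  have hA' : A.card = k.choose 2 - D := by
    rw [hA]
    unfold ct
    rw [if_pos rfl]
  have hlsA : ls A = ℓ := by
    have h1 := hp.2.2.2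
    unfold ls
    rw [hA]
    push_cast at h1 ⊢
    linarith
  have hlsB : ls (B 0) ≤ ℓ := by
    rw [Finset.sum_range_one] at hle
    push_cast at hle
    linarith
  set Q : Fin k → Fin k → Finset (Fin r) :=
    fun i j : Fin k => if i.val = 0 then B 0 else A with hQ
  have hns : ¬ SCol (k.choose 2 + 1 - D) Q := by
    have := hB (fun _ => 0) (fun _ => Nat.one_pos)
    simpa [hQ] using this
  have hgr : ∀ j : Fin k, ∑ i ∈ univ.filter (fun i => i < j), ls (Q i j) ≤ (j.val : ℝ) * ℓ := by
    intro j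
    have h1 : ∑ i ∈ univ.filter (fun i => i < j), ls (Q i j) ≤
        ∑ _i ∈ univ.filter (fun i : Fin k => i < j), ℓ := by
      refine Finset.sum_le_sum fun i _ => ?_
      simp only [hQ]
      split_ifs
      · exact hlsB
      · exact hlsA.le
    rw [Finset.sum_const, nsmul_eq_mul] at h1
    have h2 : (univ.filter (fun i : Fin k => i < j)).card = j.val := by
      have : (univ.filter (fun i : Fin k => i < j)) = Finset.Iio j := by
        ext i; simp
      rw [this, Fin.card_Iio]
    rwa [h2] at h1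
  rcases hT Q hns hgr with ⟨h1, i, j, hij, hj, hQij, _⟩ | ⟨_, U, hU, hQU⟩ |
    ⟨p', c, h1, h2, h3, _, i, j, hij, hj, hQij, hoth⟩
  · exfalso
    simp only [hQ] at hQij
    split_ifs at hQij with h2
    · rw [hQij, ls_empty] at hlsB
      have h3 : (2 : ℝ) ≤ ((k - 1 : ℕ) : ℝ) := by exact_mod_cast (by omega : 2 ≤ k - 1)
      nlinarith
    · rw [hQij, Finset.card_empty] at hA'
      omega
  · have h12 := hQU ⟨1, by omega⟩ ⟨2, by omega⟩ (by simp [Fin.lt_def])
    have h01 := hQU ⟨0, by omega⟩ ⟨1, by omega⟩ (by simp [Fin.lt_def])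
    simp only [hQ] at h12 h01
    rw [if_neg (by simp)] at h12
    rw [if_pos trivial] at h01
    have hAU : A = U := Finset.eq_of_subset_of_card_le h12 (by omega)
    rw [← hAU] at h01
    refine Finset.eq_of_subset_of_card_le h01 ?_
    by_contra hlt
    push Not at hlt
    rcases Nat.eq_zero_or_pos (B 0).card with h0 | h0
    · rw [Finset.card_eq_zero] at h0
      rw [h0, ls_empty] at hlsB
      have h4 := hO.o1
      have h3 : (2 : ℝ) ≤ ((k - 1 : ℕ) : ℝ) := by exact_mod_cast (by omega : 2 ≤ k - 1)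
      nlinarith
    · have h4 := log_lt h0 hlt
      unfold ls at hlsA hlsB
      linarith
  · exfalso
    have hch := choose_ge k hk
    have hQ1 : Q ⟨1, by omega⟩ j = A := by
      simp [hQ]
    by_cases h4 : i = ⟨1, by omega⟩
    · rw [h4, hQ1, hA'] at hQij
      omega
    · have h5 := hoth ⟨1, by omega⟩ (by rw [Fin.lt_def]; show 1 < j.val; omega) (Ne.symm h4)
      rw [hQ1] at h5
      exact ne_univ_of_card_lt A hAr h5

/-- the case of at least two classes -/
theorem star_two (k D r p : ℕ) (ℓ : ℝ) (hO : Opt k D r ℓ)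
    (hT : ∀ Q : Fin k → Fin k → Finset (Fin r), ¬ SCol (k.choose 2 + 1 - D) Q →
      (∀ j : Fin k, ∑ i ∈ univ.filter (fun i => i < j), ls (Q i j) ≤ (j.val : ℝ) * ℓ) →
      (((k - 1 : ℕ) : ℝ) * ℓ = Real.log r ∧ ∃ i j : Fin k, i < j ∧ j.val = k - 1 ∧ Q i j = ∅ ∧
        ∀ i', i' < j → i' ≠ i → Q i' j = univ) ∨
      (ℓ = Real.log r - Real.log ((k.choose 2 - D : ℕ) : ℝ) ∧
        ∃ U : Finset (Fin r), U.card = k.choose 2 - D ∧ ∀ i j, i < j → Q i j ⊆ U) ∨
      (∃ p c : ℕ, k ≤ 2 * p ∧ p + c + D = k ∧ 2 ≤ c ∧ (p : ℝ) * ℓ = Real.log r - Real.log c ∧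
        ∃ i j : Fin k, i < j ∧ j.val = p ∧ (Q i j).card = c ∧
          ∀ i', i' < j → i' ≠ i → Q i' j = univ))
    (hp : IsType k D r ℓ p) (hp2 : 2 ≤ p) (A : Finset (Fin r)) (hA : A.card = ct k D p)
    (B : ℕ → Finset (Fin r))
    (hB : ∀ J : Fin k → ℕ, (∀ t, J t < p) → ¬ SCol (k.choose 2 + 1 - D)
      (fun i j : Fin k => if i.val = 0 then B (J j) else if J i = J j then A else univ))
    (hle : ∑ i ∈ range p, ls (B i) ≤ p * ℓ) :
    ∃ i0, i0 < p ∧ ls (B i0) = p * ℓ := by
  classical
  have hk := hO.hk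
  have hD := hO.hD
  have hDC := hO.hDC
  have hrC := hO.hr
  have hpos := hO.pos
  have hr3 := hO.r3
  have hch := choose_ge k hk
  have hAr := card_lt_r hO p (by omega) A hA
  have hA' : A.card = k - p - D := by
    rw [hA]
    unfold ct
    rw [if_neg (by omega)]
  obtain ⟨_, hpk, hty, hpl⟩ := hp
  have hk2p : k ≤ 2 * p := by
    rcases hty with h | h
    · omega
    · exact h.1
  have hlsA : ls A = p * ℓ := by
    unfold ls
    rw [hA, hpl]
  -- sorting
  have hp0 : 0 < p := by omega
  set f : Fin p → ℝ := fun i => ls (B i) with hf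
  set σ := Tuple.sort f with hσ
  have hmono : Monotone (f ∘ σ) := Tuple.monotone_sort f
  have hsumf : ∑ i : Fin p, f (σ i) ≤ p * ℓ := by
    rw [Equiv.sum_comp σ f]
    rw [hf, Fin.sum_univ_eq_sum_range (fun i => ls (B i)) p]
    exact hle
  have hfnn : ∀ i : Fin p, 0 ≤ f (σ i) := fun i => ls_nonneg _
  have htail : ∀ i : Fin p, ((p : ℝ) - i.val) * f (σ i) ≤ p * ℓ := by
    intro i
    have h1 : ∑ _j ∈ Finset.Ici i, f (σ i) ≤ ∑ j ∈ Finset.Ici i, f (σ j) :=
      Finset.sum_le_sum fun j hj => hmono (Finset.mem_Ici.1 hj)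
    have h2 : ∑ j ∈ Finset.Ici i, f (σ j) ≤ ∑ j : Fin p, f (σ j) :=
      Finset.sum_le_sum_of_subset_of_nonneg (Finset.subset_univ _) fun j _ _ => hfnn j
    rw [Finset.sum_const, nsmul_eq_mul, Fin.card_Ici] at h1
    rw [Nat.cast_sub i.2.le] at h1
    linarith
  have hbd : ∀ i : Fin p, f (σ i) ≤ ((i.val : ℝ) + 1) * ℓ := by
    intro i
    have h1 := htail i
    have h2 : (i.val : ℝ) + 1 ≤ p := by exact_mod_cast i.2
    have h3 : (0 : ℝ) ≤ i.val := Nat.cast_nonneg _
    have h4 : (p : ℝ) * ℓ ≤ ((p : ℝ) - i.val) * (((i.val : ℝ) + 1) * ℓ) := by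
      have : (p : ℝ) ≤ ((p : ℝ) - i.val) * ((i.val : ℝ) + 1) := by nlinarith
      calc (p : ℝ) * ℓ ≤ (((p : ℝ) - i.val) * ((i.val : ℝ) + 1)) * ℓ :=
            mul_le_mul_of_nonneg_right this hpos.le
        _ = _ := by ring
    have h5 : (0 : ℝ) < (p : ℝ) - i.val := by linarith
    exact le_of_mul_le_mul_left (h1.trans h4) h5
  -- the classes
  set e : ℕ → ℕ := fun q => (σ ⟨q % p, Nat.mod_lt _ hp0⟩).val with he
  have helt : ∀ q, e q < p := fun q => (σ _).2
  have heinj : ∀ q q', e q = e q' → q % p = q' % p := by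
    intro q q' h
    have h1 := σ.injective (Fin.ext h)
    exact congrArg Fin.val h1
  have hels : ∀ q (hq : q < p), ls (B (e q)) = f (σ ⟨q, hq⟩) := by
    intro q hq
    simp only [he, hf]
    congr 3
    apply congrArg
    apply Fin.ext
    exact Nat.mod_eq_of_lt hq
  set Q : Fin k → Fin k → Finset (Fin r) := fun i j : Fin k =>
    if i.val = 0 then B (e (j.val - 1)) else if e (i.val - 1) = e (j.val - 1) then A else univ with hQ
  have hns : ¬ SCol (k.choose 2 + 1 - D) Q := hB (fun t => e (t.val - 1)) (fun t => helt _)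
  -- palettes
  have hQ0 : ∀ i j : Fin k, i.val = 0 → Q i j = B (e (j.val - 1)) := by
    intro i j h
    simp only [hQ]
    rw [if_pos h]
  have hQA : ∀ i j : Fin k, i < j → i.val ≠ 0 → i.val + p = j.val → Q i j = A := by
    intro i j hij h1 h2
    simp only [hQ]
    rw [if_neg h1, if_pos]
    have : j.val - 1 = (i.val - 1) + p := by omega
    simp only [he]
    congr 2
    apply Fin.ext
    show (i.val - 1) % p = (j.val - 1) % p
    rw [this, Nat.add_mod_right]
  have hQu : ∀ i j : Fin k, i < j → i.val ≠ 0 → i.val + p ≠ j.val → Q i j = univ := by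
    intro i j hij h1 h2
    simp only [hQ]
    rw [if_neg h1, if_neg]
    intro h3
    have h4 := heinj _ _ h3
    have h5 : i.val < j.val := hij
    have h6 := j.2
    rcases Nat.lt_or_ge (j.val - 1) p with h7 | h7
    · rw [Nat.mod_eq_of_lt h7, Nat.mod_eq_of_lt (by omega)] at h4
      omega
    · have h8 : (j.val - 1) % p = j.val - 1 - p := by
        rw [Nat.mod_eq_sub_mod h7, Nat.mod_eq_of_lt (by omega)]
      rcases Nat.lt_or_ge (i.val - 1) p with h9 | h9
      · rw [h8, Nat.mod_eq_of_lt h9] at h4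
        omega
      · rw [h8, Nat.mod_eq_sub_mod h9, Nat.mod_eq_of_lt (by omega)] at h4
        omega
  -- greedy
  have hgr : ∀ j : Fin k, ∑ i ∈ univ.filter (fun i => i < j), ls (Q i j) ≤ (j.val : ℝ) * ℓ := by
    intro j
    rcases Nat.eq_zero_or_pos j.val with hj0 | hj0
    · have : (univ.filter (fun i : Fin k => i < j)) = ∅ := by
        ext i
        simp only [mem_filter, mem_univ, true_and, notMem_empty, iff_false]
        intro h
        have : i.val < j.val := h
        omega
      rw [this, Finset.sum_empty, hj0]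
      simp
    · have hj2 := j.2
      rcases Nat.lt_or_ge (j.val - 1) p with hjp | hjp
      · have h1 : ∑ i ∈ univ.filter (fun i => i < j), ls (Q i j) ≤
            ∑ i ∈ univ.filter (fun i : Fin k => i < j),
              (if i = ⟨0, by omega⟩ then ls (B (e (j.val - 1))) else 0) := by
          refine Finset.sum_le_sum fun i hi => ?_
          rw [mem_filter] at hi
          by_cases h0 : i.val = 0
          · rw [if_pos (Fin.ext h0), hQ0 i j h0]
          · rw [if_neg (fun h => h0 (by rw [h])), hQu i j hi.2 h0 (by omega), ls_univ]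
        refine h1.trans ?_
        rw [Finset.sum_ite_eq']
        split_ifs
        · rw [hels _ hjp]
          have := hbd ⟨j.val - 1, hjp⟩
          have h3 : (((j.val - 1 : ℕ) : ℝ) + 1) = j.val := by
            rw [Nat.cast_sub hj0]; push_cast; ring
          simp only at this
          rwa [h3] at this
        · positivity
      · have hjlt : j.val - 1 - p < p := by omega
        have h1 : ∑ i ∈ univ.filter (fun i => i < j), ls (Q i j) ≤
            ∑ i ∈ univ.filter (fun i : Fin k => i < j),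
              ((if i = ⟨0, by omega⟩ then ls (B (e (j.val - 1))) else 0) +
                (if i = ⟨j.val - p, by omega⟩ then ls A else 0)) := by
          refine Finset.sum_le_sum fun i hi => ?_
          rw [mem_filter] at hi
          by_cases h0 : i.val = 0
          · rw [if_pos (Fin.ext h0), hQ0 i j h0]
            have : (0 : ℝ) ≤ (if i = ⟨j.val - p, by omega⟩ then ls A else 0) := by
              split_ifs
              · exact ls_nonneg _
              · exact le_rfl
            linarith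
          · rw [if_neg (fun h => h0 (by rw [h])), zero_add]
            by_cases h2 : i.val + p = j.val
            · rw [hQA i j hi.2 h0 h2, if_pos (Fin.ext (by show i.val = j.val - p; omega))]
            · rw [hQu i j hi.2 h0 h2, ls_univ]
              split_ifs
              · exact ls_nonneg _
              · exact le_rfl
        refine h1.trans ?_
        rw [Finset.sum_add_distrib, Finset.sum_ite_eq', Finset.sum_ite_eq']
        have hB1 : ls (B (e (j.val - 1))) ≤ (((j.val - 1 - p : ℕ) : ℝ) + 1) * ℓ := by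
          have h4 : e (j.val - 1) = e (j.val - 1 - p) := by
            simp only [he]
            congr 2
            apply Fin.ext
            show (j.val - 1) % p = (j.val - 1 - p) % p
            rw [Nat.mod_eq_sub_mod hjp]
          rw [h4, hels _ hjlt]
          exact hbd ⟨j.val - 1 - p, hjlt⟩
        have h5 : (((j.val - 1 - p : ℕ) : ℝ) + 1) = j.val - p := by
          have : j.val - 1 - p = j.val - (1 + p) := by omega
          rw [this, Nat.cast_sub (by omega)]; push_cast; ring
        rw [h5] at hB1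
        have h6 : (0 : ℝ) ≤ p * ℓ := by positivity
        have h7 : (0 : ℝ) ≤ ((j.val : ℝ) - p) * ℓ := by
          have : (p : ℝ) ≤ j.val := by exact_mod_cast (by omega : p ≤ j.val)
          have : (0 : ℝ) ≤ (j.val : ℝ) - p := by linarith
          positivity
        split_ifs <;> (try rw [hlsA]) <;> nlinarith
  -- case analysis
  rcases hT Q hns hgr with ⟨h1, i, j, hij, hj, hQij, hoth⟩ | ⟨_, U, hU, hQU⟩ |
    ⟨p', c, h1, h2, h3, h4, i, j, hij, hj, hQij, hoth⟩
  · by_cases hpk1 : p = k - 1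
    · by_cases h0 : i.val = 0
      · refine ⟨e (j.val - 1), helt _, ?_⟩
        rw [hQ0 i j h0] at hQij
        rw [hQij, ls_empty, hpk1, h1]
      · exfalso
        rw [hQu i j hij h0 (by have : i.val < j.val := hij; omega)] at hQij
        have := congrArg Finset.card hQij
        rw [Finset.card_univ, Fintype.card_fin, Finset.card_empty] at this
        omega
    · exfalso
      have hct : 2 ≤ A.card := by
        rw [hA]
        rcases hty with h | h
        · omega
        · rcases h.2 with h' | h'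
          · exact absurd h' hpk1
          · exact h'
      have hQs := hQA ⟨j.val - p, by omega⟩ j (by rw [Fin.lt_def]; show j.val - p < j.val; omega)
        (by show j.val - p ≠ 0; omega) (by show j.val - p + p = j.val; omega)
      by_cases h5 : i = ⟨j.val - p, by omega⟩
      · rw [h5, hQs] at hQij
        rw [hQij, Finset.card_empty] at hct
        omega
      · have h6 := hoth ⟨j.val - p, by omega⟩
          (by rw [Fin.lt_def]; show j.val - p < j.val; omega) (Ne.symm h5)
        rw [hQs] at h6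
        exact ne_univ_of_card_lt A hAr h6
  · exfalso
    have h12 := hQU ⟨1, by omega⟩ ⟨2, by omega⟩ (by simp [Fin.lt_def])
    rw [hQu ⟨1, by omega⟩ ⟨2, by omega⟩ (by simp [Fin.lt_def]) (by simp)
      (by show 1 + p ≠ 2; omega)] at h12
    have h5 := Finset.card_le_card h12
    rw [Finset.card_univ, Fintype.card_fin, hU] at h5
    omega
  · have hcr : c < r := by omega
    rcases lt_trichotomy p' p with hpp | hpp | hpp
    · exfalso
      have h0 : i.val = 0 := by
        by_contra h0
        rw [hQu i j hij h0 (by have : i.val < j.val := hij; omega)] at hQij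
        rw [Finset.card_univ, Fintype.card_fin] at hQij
        omega
      rw [hQ0 i j h0] at hQij
      have hjlt : j.val - 1 < p := by omega
      have h5 : ls (B (e (j.val - 1))) = p' * ℓ := by
        unfold ls
        rw [hQij, h4]
      rw [hels _ hjlt] at h5
      have h6 := htail ⟨j.val - 1, hjlt⟩
      rw [h5] at h6
      have h7 : ((j.val - 1 : ℕ) : ℝ) = (p' : ℝ) - 1 := by
        rw [hj, Nat.cast_sub (by omega)]; push_cast; ring
      simp only [h7] at h6
      have h8 : (2 : ℝ) ≤ p' := by exact_mod_cast (by omega : 2 ≤ p')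
      have h9 : (p' : ℝ) + 1 ≤ p := by exact_mod_cast hpp
      have h10 : (p : ℝ) < ((p : ℝ) - ((p' : ℝ) - 1)) * p' := by nlinarith
      have h11 : (p : ℝ) * ℓ < (((p : ℝ) - ((p' : ℝ) - 1)) * p') * ℓ :=
        mul_lt_mul_of_pos_right h10 hpos
      linarith [h11, h6, mul_assoc ((p : ℝ) - ((p' : ℝ) - 1)) (p' : ℝ) ℓ]
    · have h0 : i.val = 0 := by
        by_contra h0
        rw [hQu i j hij h0 (by have : i.val < j.val := hij; omega)] at hQij
        rw [Finset.card_univ, Fintype.card_fin] at hQij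
        omega
      rw [hQ0 i j h0] at hQij
      refine ⟨e (j.val - 1), helt _, ?_⟩
      unfold ls
      rw [hQij, ← hpp, h4]
    · exfalso
      have hQs := hQA ⟨j.val - p, by omega⟩ j (by rw [Fin.lt_def]; show j.val - p < j.val; omega)
        (by show j.val - p ≠ 0; omega) (by show j.val - p + p = j.val; omega)
      by_cases h5 : i = ⟨j.val - p, by omega⟩
      · rw [h5, hQs, hA'] at hQij
        omega
      · have h6 := hoth ⟨j.val - p, by omega⟩
          (by rw [Fin.lt_def]; show j.val - p < j.val; omega) (Ne.symm h5)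
        rw [hQs] at h6
        exact ne_univ_of_card_lt A hAr h6

theorem J16_star (k D r p : ℕ) (ℓ : ℝ) (hO : Opt k D r ℓ)
    (hT : ∀ Q : Fin k → Fin k → Finset (Fin r), ¬ SCol (k.choose 2 + 1 - D) Q →
      (∀ j : Fin k, ∑ i ∈ univ.filter (fun i => i < j), ls (Q i j) ≤ (j.val : ℝ) * ℓ) →
      (((k - 1 : ℕ) : ℝ) * ℓ = Real.log r ∧ ∃ i j : Fin k, i < j ∧ j.val = k - 1 ∧ Q i j = ∅ ∧
        ∀ i', i' < j → i' ≠ i → Q i' j = univ) ∨
      (ℓ = Real.log r - Real.log ((k.choose 2 - D : ℕ) : ℝ) ∧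
        ∃ U : Finset (Fin r), U.card = k.choose 2 - D ∧ ∀ i j, i < j → Q i j ⊆ U) ∨
      (∃ p c : ℕ, k ≤ 2 * p ∧ p + c + D = k ∧ 2 ≤ c ∧ (p : ℝ) * ℓ = Real.log r - Real.log c ∧
        ∃ i j : Fin k, i < j ∧ j.val = p ∧ (Q i j).card = c ∧
          ∀ i', i' < j → i' ≠ i → Q i' j = univ))
    (hp : IsType k D r ℓ p) (A : Finset (Fin r)) (hA : A.card = ct k D p)
    (B : ℕ → Finset (Fin r))
    (hB : ∀ J : Fin k → ℕ, (∀ t, J t < p) → ¬ SCol (k.choose 2 + 1 - D)
      (fun i j : Fin k => if i.val = 0 then B (J j) else if J i = J j then A else univ))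
    (hle : ∑ i ∈ range p, ls (B i) ≤ p * ℓ) :
    ∑ i ∈ range p, ls (B i) = p * ℓ ∧ (p = 1 → B 0 = A) ∧
      ∃ i0, i0 < p ∧ ∀ j, j < p → j ≠ i0 → B j = univ := by
  have hr3 := hO.r3
  rcases Nat.lt_or_ge p 2 with hp2 | hp2
  · have hp1 : p = 1 := by
      have := hp.1
      omega
    subst hp1
    have h1 := star_one k D r ℓ hO hT hp A hA B hB hle
    refine ⟨?_, fun _ => h1, 0, Nat.one_pos, fun j hj hj0 => absurd (by omega : j = 0) hj0⟩
    rw [Finset.sum_range_one, h1]
    unfold ls
    rw [hA]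
    exact hp.2.2.2.symm
  · obtain ⟨i0, hi0, h0⟩ := star_two k D r p ℓ hO hT hp hp2 A hA B hB hle
    obtain ⟨h1, h2⟩ := concl (by omega) B hle i0 hi0 h0
    exact ⟨h1, fun h => by omega, i0, hi0, h2⟩

end Pool.Agent.TH669.J675
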