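import Pool.Agent.TH477.PA.Defs

set_option autoImplicit false

/-!
# Stability for few cliques and almost optimal minimum degree (job PA-FEWCLIQUES)
-/

namespace Pool.Agent.TH669.J647

open Finset Pool.Agent.TH477.PA

variable {V : Type}

/-- pairwise related tuples -/
def PW (H : V → V → Prop) {k : ℕ} (x : Fin k → V) : Prop := ∀ i j, i < j → H (x i) (x j)

theorem PW_cons (H : V → V → Prop) {k : ℕ} (a : V) (x : Fin k → V) :
    PW H (Fin.cons a x : Fin (k + 1) → V) ↔ (∀ j, H a (x j)) ∧ PW H x := by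
  constructor
  · intro h
    refine ⟨fun j => ?_, fun i j hij => ?_⟩
    · have := h 0 j.succ (Fin.succ_pos j)
      simpa using this
    · have := h i.succ j.succ (Fin.succ_lt_succ_iff.2 hij)
      simpa using this
  · rintro ⟨h1, h2⟩ i j hij
    induction i using Fin.cases with
    | zero =>
      induction j using Fin.cases with
      | zero => exact absurd hij (lt_irrefl _)
      | succ j => simpa using h1 j
    | succ i =>
      induction j using Fin.cases with
      | zero => exact absurd hij (Fin.not_lt_zero _)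
      | succ j => simpa using h2 i j (Fin.succ_lt_succ_iff.1 hij)

theorem sum_cons (W : Finset V) (k : ℕ) (f : (Fin (k + 1) → V) → ℝ) :
    ∑ x ∈ Fintype.piFinset (fun _ : Fin (k + 1) => W), f x =
      ∑ a ∈ W, ∑ x ∈ Fintype.piFinset (fun _ : Fin k => W), f (Fin.cons a x) := by
  rw [← Finset.sum_product']
  symm
  refine Finset.sum_nbij' (fun q => (Fin.cons q.1 q.2 : Fin (k + 1) → V))
    (fun x => (x 0, Fin.tail x)) ?_ ?_ ?_ ?_ ?_
  · rintro ⟨a, x⟩ h
    rw [Finset.mem_product] at h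
    rw [Fintype.mem_piFinset]
    intro i
    have h2 := Fintype.mem_piFinset.1 h.2
    induction i using Fin.cases with
    | zero => simpa using h.1
    | succ i => simpa using h2 i
  · intro x h
    rw [Fintype.mem_piFinset] at h
    rw [Finset.mem_product]
    refine ⟨h 0, ?_⟩
    rw [Fintype.mem_piFinset]
    intro i
    exact h i.succ
  · rintro ⟨a, x⟩ _
    simp
  · intro x _
    simp
  · rintro ⟨a, x⟩ _
    rfl

theorem sum_update (W : Finset V) (k : ℕ) (i : Fin k) (f : (Fin k → V) → ℝ) :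
    ∑ x ∈ Fintype.piFinset (fun _ : Fin k => W), ∑ y ∈ W, f (Function.update x i y) =
      W.card * ∑ x ∈ Fintype.piFinset (fun _ : Fin k => W), f x := by
  have h1 : (W.card : ℝ) * ∑ x ∈ Fintype.piFinset (fun _ : Fin k => W), f x =
      ∑ x ∈ Fintype.piFinset (fun _ : Fin k => W), ∑ _y ∈ W, f x := by
    rw [Finset.mul_sum]
    refine Finset.sum_congr rfl fun x _ => ?_
    rw [Finset.sum_const, nsmul_eq_mul]
  rw [h1, ← Finset.sum_product', ← Finset.sum_product']
  refine Finset.sum_nbij' (fun q => (Function.update q.1 i q.2, q.1 i))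
    (fun q => (Function.update q.1 i q.2, q.1 i)) ?_ ?_ ?_ ?_ ?_
  · rintro ⟨x, y⟩ h
    rw [Finset.mem_product] at h
    rw [Finset.mem_product]
    have hx := Fintype.mem_piFinset.1 h.1
    refine ⟨?_, hx i⟩
    rw [Fintype.mem_piFinset]
    intro j
    by_cases hj : j = i
    · subst hj
      simpa using h.2
    · simpa [Function.update_of_ne hj] using hx j
  · rintro ⟨x, y⟩ h
    rw [Finset.mem_product] at h
    rw [Finset.mem_product]
    have hx := Fintype.mem_piFinset.1 h.1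
    refine ⟨?_, hx i⟩
    rw [Fintype.mem_piFinset]
    intro j
    by_cases hj : j = i
    · subst hj
      simpa using h.2
    · simpa [Function.update_of_ne hj] using hx j
  · rintro ⟨x, y⟩ _
    simp
  · rintro ⟨x, y⟩ _
    simp
  · rintro ⟨x, y⟩ _
    rfl

theorem ind_forall_ge {ι : Type} [Fintype ι] (P : ι → Prop) :
    1 - ∑ j, ind (¬ P j) ≤ ind (∀ j, P j) := by
  by_cases h : ∀ j, P j
  · rw [ind_pos h]
    have : 0 ≤ ∑ j, ind (¬ P j) := Finset.sum_nonneg fun j _ => ind_nonneg _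
    linarith
  · rw [ind_neg h]
    push Not at h
    obtain ⟨j, hj⟩ := h
    have : ind (¬ P j) ≤ ∑ j, ind (¬ P j) :=
      Finset.single_le_sum (fun j _ => ind_nonneg (¬ P j)) (Finset.mem_univ j)
    rw [ind_pos hj] at this
    linarith

/-- number of pairwise related tuples -/
noncomputable def T (H : V → V → Prop) (W : Finset V) (k : ℕ) : ℝ :=
  ∑ x ∈ Fintype.piFinset (fun _ : Fin k => W), ind (PW H x)

theorem T_succ (H : V → V → Prop) (W : Finset V) (k : ℕ) :
    T H W (k + 1) = ∑ x ∈ Fintype.piFinset (fun _ : Fin k => W),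
      ind (PW H x) * ∑ a ∈ W, ind (∀ j, H a (x j)) := by
  unfold T
  rw [sum_cons, Finset.sum_comm]
  refine Finset.sum_congr rfl fun x _ => ?_
  rw [Finset.mul_sum]
  refine Finset.sum_congr rfl fun a _ => ?_
  rw [ind_congr (PW_cons H a x), ind_and, mul_comm]

theorem T_nonneg (H : V → V → Prop) (W : Finset V) (k : ℕ) : 0 ≤ T H W k :=
  Finset.sum_nonneg fun _ _ => ind_nonneg _

theorem T_lower (p : ℕ) (hp : 1 ≤ p) (ε : ℝ) (hε2 : ε ≤ 1 / (2 * (p : ℝ) ^ 2)) (H : V → V → Prop)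
    (W : Finset V) (hsym : ∀ x y, H x y → H y x)
    (hdeg : ∀ x ∈ W, ∑ y ∈ W, ind (¬ H x y) ≤ (1 / p + ε) * W.card) (k : ℕ) (hk : k ≤ p) :
    ((W.card : ℝ) / (2 * p)) ^ k ≤ T H W k := by
  have hp0 : (0 : ℝ) < p := by exact_mod_cast hp
  induction k with
  | zero =>
    unfold T
    have : (Fintype.piFinset (fun _ : Fin 0 => W)) = Finset.univ := by
      ext x
      simp
    rw [this]
    simp only [pow_zero, Finset.univ_unique, Finset.sum_singleton]
    rw [ind_pos]
    intro i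
    exact i.elim0
  | succ k ih =>
    have ih' := ih (by omega)
    have hkp : (k : ℝ) + 1 ≤ p := by exact_mod_cast hk
    rw [T_succ, pow_succ]
    have h1 : ∀ x ∈ Fintype.piFinset (fun _ : Fin k => W),
        ind (PW H x) * ((W.card : ℝ) / (2 * p)) ≤
          ind (PW H x) * ∑ a ∈ W, ind (∀ j, H a (x j)) := by
      intro x hx
      have hx' := Fintype.mem_piFinset.1 hx
      refine mul_le_mul_of_nonneg_left ?_ (ind_nonneg _)
      have h2 : ∑ a ∈ W, (1 - ∑ j, ind (¬ H a (x j))) ≤ ∑ a ∈ W, ind (∀ j, H a (x j)) :=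
        Finset.sum_le_sum fun a _ => ind_forall_ge _
      rw [Finset.sum_sub_distrib, Finset.sum_comm] at h2
      have h3 : ∑ j : Fin k, ∑ a ∈ W, ind (¬ H a (x j)) ≤
          ∑ _j : Fin k, (1 / p + ε) * (W.card : ℝ) := by
        refine Finset.sum_le_sum fun j _ => ?_
        refine le_trans (le_of_eq ?_) (hdeg (x j) (hx' j))
        refine Finset.sum_congr rfl fun a _ => ?_
        exact ind_congr (not_congr ⟨hsym _ _, hsym _ _⟩)
      rw [Finset.sum_const, Finset.card_univ, Fintype.card_fin, nsmul_eq_mul] at h3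
      rw [Finset.sum_const, nsmul_eq_mul, mul_one] at h2
      refine le_trans ?_ h2
      have hW : (0 : ℝ) ≤ W.card := Nat.cast_nonneg _
      have h4 : (1 / (2 * (p : ℝ))) ≤ 1 - (k : ℝ) * (1 / p + ε) := by
        have h5 : (k : ℝ) * (1 / p + ε) ≤ (k : ℝ) * (1 / p + 1 / (2 * (p : ℝ) ^ 2)) :=
          mul_le_mul_of_nonneg_left (by linarith) (Nat.cast_nonneg _)
        have h6 : (k : ℝ) * (1 / p + 1 / (2 * (p : ℝ) ^ 2)) ≤
            ((p : ℝ) - 1) * (1 / p + 1 / (2 * (p : ℝ) ^ 2)) :=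
          mul_le_mul_of_nonneg_right (by linarith) (by positivity)
        have h7 : ((p : ℝ) - 1) * (1 / p + 1 / (2 * (p : ℝ) ^ 2)) =
            1 - 1 / (2 * p) - 1 / (2 * (p : ℝ) ^ 2) := by
          field_simp
          ring
        have h8 : (0 : ℝ) < 1 / (2 * (p : ℝ) ^ 2) := by positivity
        linarith
      have h9 : (W.card : ℝ) / (2 * p) = W.card * (1 / (2 * (p : ℝ))) := by ring
      rw [h9]
      have h10 := mul_le_mul_of_nonneg_left h4 hW
      have h11 : (W.card : ℝ) * (1 - k * (1 / p + ε)) = W.card - k * ((1 / p + ε) * W.card) := by ring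
      linarith
    have h2 := Finset.sum_le_sum h1
    rw [← Finset.sum_mul] at h2
    refine le_trans ?_ h2
    exact mul_le_mul_of_nonneg_right ih' (by positivity)

/-- weight of a tuple: common neighbours -/
noncomputable def wa (H : V → V → Prop) (W : Finset V) {p : ℕ} (x : Fin p → V) : ℝ :=
  ∑ y ∈ W, ind (∀ j, H y (x j))

/-- weight of a tuple: related pairs of vertices which both can replace the `i`-th vertex -/
noncomputable def wb (H : V → V → Prop) (W : Finset V) {p : ℕ} (x : Fin p → V) (i : Fin p) : ℝ :=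
  ∑ y ∈ W, ∑ z ∈ W, ind ((∀ j, j ≠ i → H (x j) y) ∧ (∀ j, j ≠ i → H (x j) z) ∧ H y z)

theorem sum_wa (H : V → V → Prop) (W : Finset V) (p : ℕ) :
    ∑ x ∈ Fintype.piFinset (fun _ : Fin p => W), ind (PW H x) * wa H W x = T H W (p + 1) :=
  (T_succ H W p).symm

theorem sum_wb (H : V → V → Prop) (W : Finset V) (hsym : ∀ x y, H x y → H y x) (p : ℕ) (i : Fin p) :
    ∑ x ∈ Fintype.piFinset (fun _ : Fin p => W), ind (PW H x) * wb H W x i ≤
      W.card * T H W (p + 1) := by
  rw [← sum_wa, ← sum_update W p i]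
  refine Finset.sum_le_sum fun x _ => ?_
  unfold wb wa
  rw [Finset.mul_sum]
  refine Finset.sum_le_sum fun y _ => ?_
  rw [Finset.mul_sum, Finset.mul_sum]
  refine Finset.sum_le_sum fun z _ => ?_
  rw [← ind_and, ← ind_and]
  refine ind_mono ?_
  rintro ⟨h1, h2, h3, h4⟩
  refine ⟨?_, ?_⟩
  · intro a b hab
    by_cases ha : a = i
    · subst ha
      have hb : b ≠ a := hab.ne'
      rw [Function.update_self, Function.update_of_ne hb]
      exact hsym _ _ (h2 b hb)
    · rw [Function.update_of_ne ha]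
      by_cases hb : b = i
      · subst hb
        rw [Function.update_self]
        exact h2 a ha
      · rw [Function.update_of_ne hb]
        exact h1 a b hab
  · intro j
    by_cases hj : j = i
    · subst hj
      rw [Function.update_self]
      exact hsym _ _ h4
    · rw [Function.update_of_ne hj]
      exact hsym _ _ (h3 j hj)

theorem exists_tuple (p : ℕ) (H : V → V → Prop) (W : Finset V) (hsym : ∀ x y, H x y → H y x)
    (hW : 0 < W.card) (c ε : ℝ) (hc : 0 < c) (hT : c * (W.card : ℝ) ^ p ≤ T H W p)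
    (hT2 : T H W (p + 1) ≤ ε * (W.card : ℝ) ^ (p + 1)) :
    ∃ x : Fin p → V, (∀ i, x i ∈ W) ∧ PW H x ∧
      wa H W x * W.card + ∑ i, wb H W x i ≤ (p + 1) * ε / c * (W.card : ℝ) ^ 2 := by
  have hW' : (0 : ℝ) < W.card := by exact_mod_cast hW
  by_contra hcon
  push Not at hcon
  have hTpos : 0 < T H W p := lt_of_lt_of_le (by positivity) hT
  set S := Fintype.piFinset (fun _ : Fin p => W) with hS
  have hex : ∃ x ∈ S, ind (PW H x) ≠ 0 := by
    by_contra hno
    push Not at hno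
    have : T H W p = 0 := Finset.sum_eq_zero hno
    linarith
  obtain ⟨x0, hx0, hx0'⟩ := hex
  have hx0P : PW H x0 := by
    by_contra h
    exact hx0' (ind_neg h)
  have h1 : ∑ x ∈ S, ind (PW H x) * ((p + 1) * ε / c * (W.card : ℝ) ^ 2) <
      ∑ x ∈ S, ind (PW H x) * (wa H W x * W.card + ∑ i, wb H W x i) := by
    refine Finset.sum_lt_sum ?_ ⟨x0, hx0, ?_⟩
    · intro x hx
      by_cases h : PW H x
      · rw [ind_pos h, one_mul, one_mul]
        exact (hcon x (Fintype.mem_piFinset.1 hx) h).le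
      · rw [ind_neg h, zero_mul, zero_mul]
    · rw [ind_pos hx0P, one_mul, one_mul]
      exact hcon x0 (Fintype.mem_piFinset.1 hx0) hx0P
  rw [← Finset.sum_mul] at h1
  have h2 : ∑ x ∈ S, ind (PW H x) * (wa H W x * W.card + ∑ i, wb H W x i) =
      (∑ x ∈ S, ind (PW H x) * wa H W x) * W.card +
        ∑ i, ∑ x ∈ S, ind (PW H x) * wb H W x i := by
    rw [Finset.sum_comm, Finset.sum_mul, ← Finset.sum_add_distrib]
    refine Finset.sum_congr rfl fun x _ => ?_
    rw [← Finset.mul_sum]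
    ring
  rw [h2, sum_wa] at h1
  have h3 : ∑ i, ∑ x ∈ S, ind (PW H x) * wb H W x i ≤ ∑ _i : Fin p, (W.card : ℝ) * T H W (p + 1) :=
    Finset.sum_le_sum fun i _ => sum_wb H W hsym p i
  rw [Finset.sum_const, Finset.card_univ, Fintype.card_fin, nsmul_eq_mul] at h3
  have h4 : T H W p * ((p + 1) * ε / c * (W.card : ℝ) ^ 2) < ((p : ℝ) + 1) * W.card * T H W (p + 1) := by
    have h5 : (∑ x ∈ S, ind (PW H x)) = T H W p := rfl
    rw [h5] at h1
    nlinarith
  have h5 : ((p : ℝ) + 1) * W.card * T H W (p + 1) ≤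
      ((p : ℝ) + 1) * W.card * (ε * (W.card : ℝ) ^ (p + 1)) :=
    mul_le_mul_of_nonneg_left hT2 (by positivity)
  have hε : 0 ≤ ε := by
    have h6 : 0 ≤ ε * (W.card : ℝ) ^ (p + 1) := (T_nonneg H W (p + 1)).trans hT2
    by_contra hneg
    push Not at hneg
    have : ε * (W.card : ℝ) ^ (p + 1) < 0 := mul_neg_of_neg_of_pos hneg (by positivity)
    linarith
  have h6 : c * (W.card : ℝ) ^ p * ((p + 1) * ε / c * (W.card : ℝ) ^ 2) ≤
      T H W p * ((p + 1) * ε / c * (W.card : ℝ) ^ 2) :=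
    mul_le_mul_of_nonneg_right hT (by positivity)
  have h7 : c * (W.card : ℝ) ^ p * ((p + 1) * ε / c * (W.card : ℝ) ^ 2) =
      ((p : ℝ) + 1) * W.card * (ε * (W.card : ℝ) ^ (p + 1)) := by
    field_simp
    ring
  linarith

/-- exactly one vertex of the tuple is not related to `y` -/
def Nice (H : V → V → Prop) {p : ℕ} (x : Fin p → V) (y : V) : Prop :=
  ∃ i, ¬ H (x i) y ∧ ∀ j, j ≠ i → H (x j) y

open Classical in
/-- the class of `y` -/
noncomputable def cl (H : V → V → Prop) {p : ℕ} (x : Fin p → V) (y : V) : ℕ :=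
  if h : Nice H x y then (h.choose : ℕ) else 0

theorem cl_lt (H : V → V → Prop) {p : ℕ} (hp : 1 ≤ p) (x : Fin p → V) (y : V) : cl H x y < p := by
  unfold cl
  split_ifs with h
  · exact h.choose.2
  · omega

theorem cl_spec (H : V → V → Prop) {p : ℕ} (x : Fin p → V) (y : V) (h : Nice H x y) :
    ∃ i : Fin p, cl H x y = i ∧ ¬ H (x i) y ∧ ∀ j, j ≠ i → H (x j) y := by
  refine ⟨h.choose, ?_, h.choose_spec⟩
  unfold cl
  rw [dif_pos h]

theorem not_nice_le (H : V → V → Prop) {p : ℕ} (x : Fin p → V) (y : V) :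
    ind (¬ Nice H x y) ≤ 2 * ind (∀ i, H (x i) y) + (∑ i, ind (¬ H (x i) y) - 1) := by
  classical
  by_cases h0 : ∀ i, H (x i) y
  · rw [ind_pos h0]
    have h1 : ∑ i, ind (¬ H (x i) y) = 0 :=
      Finset.sum_eq_zero fun i _ => ind_neg (not_not.2 (h0 i))
    rw [h1]
    linarith [ind_le_one (¬ Nice H x y)]
  · rw [ind_neg h0]
    push Not at h0
    obtain ⟨i, hi⟩ := h0
    by_cases h1 : Nice H x y
    · rw [ind_neg (not_not.2 h1)]
      have : ind (¬ H (x i) y) ≤ ∑ i, ind (¬ H (x i) y) :=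
        Finset.single_le_sum (fun j _ => ind_nonneg (¬ H (x j) y)) (Finset.mem_univ i)
      rw [ind_pos hi] at this
      linarith
    · rw [ind_pos h1]
      have h2 : ∃ j, j ≠ i ∧ ¬ H (x j) y := by
        by_contra hno
        push Not at hno
        exact h1 ⟨i, hi, hno⟩
      obtain ⟨j, hji, hj⟩ := h2
      have h3 : ind (¬ H (x i) y) + ind (¬ H (x j) y) ≤ ∑ i, ind (¬ H (x i) y) := by
        have h4 : ∑ l ∈ ({i, j} : Finset (Fin p)), ind (¬ H (x l) y) ≤ ∑ i, ind (¬ H (x i) y) :=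
          Finset.sum_le_sum_of_subset_of_nonneg (Finset.subset_univ _) fun l _ _ => ind_nonneg _
        rwa [Finset.sum_pair hji.symm] at h4
      rw [ind_pos hi, ind_pos hj] at h3
      linarith

theorem same_le (H : V → V → Prop) {p : ℕ} (x : Fin p → V) (y z : V) :
    ind (cl H x y = cl H x z ∧ H y z) ≤ ind (¬ Nice H x y) + ind (¬ Nice H x z) +
      ∑ i, ind ((∀ j, j ≠ i → H (x j) y) ∧ (∀ j, j ≠ i → H (x j) z) ∧ H y z) := by
  have hs : 0 ≤ ∑ i, ind ((∀ j, j ≠ i → H (x j) y) ∧ (∀ j, j ≠ i → H (x j) z) ∧ H y z) :=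
    Finset.sum_nonneg fun i _ => ind_nonneg _
  by_cases h : cl H x y = cl H x z ∧ H y z
  · rw [ind_pos h]
    by_cases hy : Nice H x y
    · by_cases hz : Nice H x z
      · obtain ⟨i, hi1, hi2, hi3⟩ := cl_spec H x y hy
        obtain ⟨i', hi1', hi2', hi3'⟩ := cl_spec H x z hz
        have hii : i = i' := by
          apply Fin.ext
          rw [← hi1, ← hi1', h.1]
        subst hii
        have h4 : ind ((∀ j, j ≠ i → H (x j) y) ∧ (∀ j, j ≠ i → H (x j) z) ∧ H y z) ≤
            ∑ i, ind ((∀ j, j ≠ i → H (x j) y) ∧ (∀ j, j ≠ i → H (x j) z) ∧ H y z) :=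
          Finset.single_le_sum (f := fun i => ind ((∀ j, j ≠ i → H (x j) y) ∧
            (∀ j, j ≠ i → H (x j) z) ∧ H y z)) (fun j _ => ind_nonneg _) (Finset.mem_univ i)
        rw [ind_pos ⟨hi3, hi3', h.2⟩] at h4
        linarith [ind_nonneg (¬ Nice H x y), ind_nonneg (¬ Nice H x z)]
      · rw [ind_pos hz]
        linarith [ind_nonneg (¬ Nice H x y)]
    · rw [ind_pos hy]
      linarith [ind_nonneg (¬ Nice H x z)]
  · rw [ind_neg h]
    linarith [ind_nonneg (¬ Nice H x y), ind_nonneg (¬ Nice H x z)]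

theorem same_lower (p : ℕ) (hp : 1 ≤ p) (W : Finset V) (cls : V → ℕ) (hcls : ∀ x, cls x < p) :
    (W.card : ℝ) ^ 2 / p ≤ ∑ y ∈ W, ∑ z ∈ W, ind (cls y = cls z) := by
  have hp0 : (0 : ℝ) < p := by exact_mod_cast hp
  have h1 : ∀ y z : V, ind (cls y = cls z) =
      ∑ i ∈ Finset.range p, ind (cls y = i) * ind (cls z = i) := by
    intro y z
    rw [Finset.sum_eq_single (cls y)]
    · rw [ind_pos rfl, one_mul]
      exact ind_congr ⟨fun h => h.symm, fun h => h.symm⟩
    · intro i _ hi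
      rw [ind_neg (fun h => hi h.symm), zero_mul]
    · intro h
      exact absurd (Finset.mem_range.2 (hcls y)) h
  have h2 : ∑ y ∈ W, ∑ z ∈ W, ind (cls y = cls z) =
      ∑ i ∈ Finset.range p, (∑ y ∈ W, ind (cls y = i)) ^ 2 := by
    calc ∑ y ∈ W, ∑ z ∈ W, ind (cls y = cls z)
        = ∑ y ∈ W, ∑ z ∈ W, ∑ i ∈ Finset.range p, ind (cls y = i) * ind (cls z = i) := by
          refine Finset.sum_congr rfl fun y _ => Finset.sum_congr rfl fun z _ => h1 y z
      _ = ∑ y ∈ W, ∑ i ∈ Finset.range p, ∑ z ∈ W, ind (cls y = i) * ind (cls z = i) := by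
          refine Finset.sum_congr rfl fun y _ => Finset.sum_comm
      _ = ∑ i ∈ Finset.range p, ∑ y ∈ W, ∑ z ∈ W, ind (cls y = i) * ind (cls z = i) :=
          Finset.sum_comm
      _ = ∑ i ∈ Finset.range p, (∑ y ∈ W, ind (cls y = i)) ^ 2 := by
          refine Finset.sum_congr rfl fun i _ => ?_
          rw [sq, Finset.sum_mul_sum]
  have h3 : ∑ i ∈ Finset.range p, ∑ y ∈ W, ind (cls y = i) = W.card := by
    rw [Finset.sum_comm]
    have : ∀ y ∈ W, ∑ i ∈ Finset.range p, ind (cls y = i) = 1 := by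
      intro y _
      rw [Finset.sum_eq_single (cls y)]
      · exact ind_pos rfl
      · intro i _ hi
        exact ind_neg (fun h => hi h.symm)
      · intro h
        exact absurd (Finset.mem_range.2 (hcls y)) h
    rw [Finset.sum_congr rfl this, Finset.sum_const, nsmul_eq_mul, mul_one]
  have h4 := sq_sum_le_card_mul_sum_sq (s := Finset.range p)
    (f := fun i => ∑ y ∈ W, ind (cls y = i))
  rw [h3, Finset.card_range] at h4
  rw [h2, div_le_iff₀ hp0, mul_comm]
  exact h4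

theorem bad_eq (a b : Prop) : ind (¬ (a ↔ ¬ b)) = ind (¬ a) + 2 * ind (b ∧ a) - ind b := by
  by_cases ha : a
  · by_cases hb : b
    · rw [ind_pos (by tauto), ind_neg (by tauto), ind_pos ⟨hb, ha⟩, ind_pos hb]
      norm_num
    · rw [ind_neg (by tauto), ind_neg (by tauto), ind_neg (by tauto), ind_neg hb]
      norm_num
  · by_cases hb : b
    · rw [ind_neg (by tauto), ind_pos ha, ind_neg (by tauto), ind_pos hb]
      norm_num
    · rw [ind_pos (by tauto), ind_pos ha, ind_neg (by tauto), ind_neg hb]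
      norm_num

theorem main_bound (p : ℕ) (hp : 1 ≤ p) (ε K : ℝ) (H : V → V → Prop) (W : Finset V)
    (hsym : ∀ x y, H x y → H y x)
    (hdeg : ∀ x ∈ W, ∑ y ∈ W, ind (¬ H x y) ≤ (1 / p + ε) * W.card)
    (x : Fin p → V) (hx : ∀ i, x i ∈ W)
    (hK : wa H W x * W.card + ∑ i, wb H W x i ≤ K * (W.card : ℝ) ^ 2) :
    ∑ y ∈ W, ∑ z ∈ W, ind (¬ (H y z ↔ cl H x y ≠ cl H x z)) ≤
      (ε * (1 + 4 * p) + 8 * K) * (W.card : ℝ) ^ 2 := by
  have hp0 : (0 : ℝ) < p := by exact_mod_cast hp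
  have hn : (0 : ℝ) ≤ W.card := Nat.cast_nonneg _
  have e1 : ∑ y ∈ W, ∑ z ∈ W, ind (¬ (H y z ↔ cl H x y ≠ cl H x z)) =
      ∑ y ∈ W, ∑ z ∈ W, ind (¬ H y z) + 2 * ∑ y ∈ W, ∑ z ∈ W, ind (cl H x y = cl H x z ∧ H y z) -
        ∑ y ∈ W, ∑ z ∈ W, ind (cl H x y = cl H x z) := by
    rw [Finset.mul_sum, ← Finset.sum_add_distrib, ← Finset.sum_sub_distrib]
    refine Finset.sum_congr rfl fun y _ => ?_
    rw [Finset.mul_sum, ← Finset.sum_add_distrib, ← Finset.sum_sub_distrib]
    refine Finset.sum_congr rfl fun z _ => ?_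
    exact bad_eq _ _
  have e2 : ∑ y ∈ W, ∑ z ∈ W, ind (¬ H y z) ≤ (1 / p + ε) * (W.card : ℝ) ^ 2 := by
    have : ∑ y ∈ W, ∑ z ∈ W, ind (¬ H y z) ≤ ∑ _y ∈ W, (1 / p + ε) * (W.card : ℝ) :=
      Finset.sum_le_sum hdeg
    rw [Finset.sum_const, nsmul_eq_mul] at this
    linarith [this, show (W.card : ℝ) * ((1 / p + ε) * W.card) = (1 / p + ε) * (W.card : ℝ) ^ 2 by ring]
  have e3 := same_lower p hp W (cl H x) (cl_lt H hp x)
  have e4 : ∑ y ∈ W, ind (¬ Nice H x y) ≤ 2 * wa H W x + p * ε * W.card := by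
    have h1 : ∑ y ∈ W, ind (¬ Nice H x y) ≤
        ∑ y ∈ W, (2 * ind (∀ i, H (x i) y) + (∑ i, ind (¬ H (x i) y) - 1)) :=
      Finset.sum_le_sum fun y _ => not_nice_le H x y
    rw [Finset.sum_add_distrib, Finset.sum_sub_distrib, ← Finset.mul_sum, Finset.sum_const,
      nsmul_eq_mul, mul_one] at h1
    have h2 : ∑ y ∈ W, ind (∀ i, H (x i) y) = wa H W x := by
      refine Finset.sum_congr rfl fun y _ => ?_
      exact ind_congr ⟨fun h i => hsym _ _ (h i), fun h i => hsym _ _ (h i)⟩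
    have h3 : ∑ y ∈ W, ∑ i, ind (¬ H (x i) y) ≤ ∑ _i : Fin p, (1 / p + ε) * (W.card : ℝ) := by
      rw [Finset.sum_comm]
      exact Finset.sum_le_sum fun i _ => hdeg (x i) (hx i)
    rw [Finset.sum_const, Finset.card_univ, Fintype.card_fin, nsmul_eq_mul] at h3
    have h4 : (p : ℝ) * ((1 / p + ε) * W.card) = W.card + p * ε * W.card := by
      field_simp
    linarith
  have e5 : ∑ y ∈ W, ∑ z ∈ W, ind (cl H x y = cl H x z ∧ H y z) ≤
      2 * W.card * (∑ y ∈ W, ind (¬ Nice H x y)) + ∑ i, wb H W x i := by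
    have h1 : ∑ y ∈ W, ∑ z ∈ W, ind (cl H x y = cl H x z ∧ H y z) ≤
        ∑ y ∈ W, ∑ z ∈ W, (ind (¬ Nice H x y) + ind (¬ Nice H x z) +
          ∑ i, ind ((∀ j, j ≠ i → H (x j) y) ∧ (∀ j, j ≠ i → H (x j) z) ∧ H y z)) :=
      Finset.sum_le_sum fun y _ => Finset.sum_le_sum fun z _ => same_le H x y z
    refine h1.trans (le_of_eq ?_)
    have h2 : ∑ i, wb H W x i = ∑ y ∈ W, ∑ z ∈ W,
        ∑ i, ind ((∀ j, j ≠ i → H (x j) y) ∧ (∀ j, j ≠ i → H (x j) z) ∧ H y z) := by
      unfold wb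
      rw [Finset.sum_comm]
      refine Finset.sum_congr rfl fun y _ => ?_
      rw [Finset.sum_comm]
    rw [h2]
    simp only [Finset.sum_add_distrib, Finset.sum_const, nsmul_eq_mul, ← Finset.mul_sum]
    ring
  have e6 : W.card * ∑ y ∈ W, ind (¬ Nice H x y) ≤ W.card * (2 * wa H W x + p * ε * W.card) :=
    mul_le_mul_of_nonneg_left e4 hn
  have e7 : (1 / p + ε) * (W.card : ℝ) ^ 2 = (W.card : ℝ) ^ 2 / p + ε * (W.card : ℝ) ^ 2 := by ring
  have e8 : 0 ≤ ∑ i, wb H W x i :=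
    Finset.sum_nonneg fun i _ => Finset.sum_nonneg fun y _ => Finset.sum_nonneg fun z _ => ind_nonneg _
  rw [e1]
  nlinarith

theorem J8_few_cliques (p : ℕ) (hp : 1 ≤ p) (η : ℝ) (hη : 0 < η) :
    ∃ ε : ℝ, 0 < ε ∧ ∃ n0 : ℕ, ∀ (V : Type) (W : Finset V) (H : V → V → Prop),
      n0 ≤ W.card → (∀ x y, H x y → H y x) →
      (∀ x ∈ W, ∑ y ∈ W, ind (¬ H x y) ≤ (1 / p + ε) * W.card) →
      ∑ x ∈ Fintype.piFinset (fun _ : Fin (p + 1) => W), ind (∀ i j, i < j → H (x i) (x j)) ≤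
        ε * (W.card : ℝ) ^ (p + 1) →
      ∃ cls : V → ℕ, (∀ x, cls x < p) ∧
        ∑ x ∈ W, ∑ y ∈ W, ind (¬ (H x y ↔ cls x ≠ cls y)) ≤ η * (W.card : ℝ) ^ 2 := by
  have hp0 : (0 : ℝ) < p := by exact_mod_cast hp
  set c : ℝ := (1 / (2 * (p : ℝ))) ^ p with hc
  have hc0 : 0 < c := by positivity
  set D : ℝ := 1 + 4 * p + 8 * (p + 1) / c with hD
  have hD0 : 0 < D := by positivity
  refine ⟨min (1 / (2 * (p : ℝ) ^ 2)) (η / D), lt_min (by positivity) (by positivity), 1, ?_⟩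
  set ε : ℝ := min (1 / (2 * (p : ℝ) ^ 2)) (η / D) with hε
  have hε1 : ε ≤ 1 / (2 * (p : ℝ) ^ 2) := min_le_left _ _
  have hε2 : ε ≤ η / D := min_le_right _ _
  intro V W H hW hsym hdeg hcl
  have hT := T_lower p hp ε hε1 H W hsym hdeg p le_rfl
  have hT' : c * (W.card : ℝ) ^ p ≤ T H W p := by
    refine le_trans (le_of_eq ?_) hT
    rw [hc, ← mul_pow]
    congr 1
    ring
  obtain ⟨x, hx1, hx2, hx3⟩ := exists_tuple p H W hsym (by omega) c ε hc0 hT' hcl
  refine ⟨cl H x, cl_lt H hp x, ?_⟩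
  have h1 := main_bound p hp ε ((p + 1) * ε / c) H W hsym hdeg x hx1 hx3
  refine h1.trans ?_
  refine mul_le_mul_of_nonneg_right ?_ (by positivity)
  have h2 : ε * (1 + 4 * p) + 8 * ((p + 1) * ε / c) = ε * D := by
    rw [hD]
    ring
  rw [h2]
  calc ε * D ≤ η / D * D := mul_le_mul_of_nonneg_right hε2 hD0.le
    _ = η := by field_simp

end Pool.Agent.TH669.J647
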